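import Pool.Agent.W753.CZ.Crouzeix

set_option autoImplicit false

open Polynomial Filter Topology

namespace Pool.Agent.Helper324_QNR

open Pool.Agent.W753.CZ

variable {H : Type*} [NormedAddCommGroup H] [InnerProductSpace ℂ H] [CompleteSpace H]

/-- The scaled `q`-numerical range, for an operator on a Hilbert space. The inner product
`⟨x, y⟩` that is linear in `x` is `inner ℂ y x`. -/
def Om (A : H →L[ℂ] H) (q : ℂ) : Set ℂ :=
  {z | ∃ x y : H, ‖x‖ = 1 ∧ ‖y‖ = 1 ∧ inner ℂ y x = q ∧ z = inner ℂ y (A x) / q}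

/-- Möbius maps preserve the unit disc. -/
theorem moebius_le (z e : ℂ) (hz : ‖z‖ ≤ 1) (he : ‖e‖ ≤ 1) :
    ‖z - e‖ ≤ ‖1 - (starRingEnd ℂ) e * z‖ := by
  have h1 : ‖z - e‖ ^ 2 ≤ ‖1 - (starRingEnd ℂ) e * z‖ ^ 2 := by
    have hz2 : z.re * z.re + z.im * z.im ≤ 1 := by
      rw [← Complex.normSq_apply, Complex.normSq_eq_norm_sq]
      nlinarith [norm_nonneg z]
    have he2 : e.re * e.re + e.im * e.im ≤ 1 := by
      rw [← Complex.normSq_apply, Complex.normSq_eq_norm_sq]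
      nlinarith [norm_nonneg e]
    rw [← Complex.normSq_eq_norm_sq, ← Complex.normSq_eq_norm_sq, Complex.normSq_apply,
      Complex.normSq_apply]
    simp only [Complex.sub_re, Complex.sub_im, Complex.one_re, Complex.one_im, Complex.mul_re,
      Complex.mul_im, Complex.conj_re, Complex.conj_im]
    nlinarith [mul_nonneg (sub_nonneg.mpr hz2) (sub_nonneg.mpr he2)]
  exact le_of_sq_le_sq h1 (norm_nonneg _)

/-- the rank one projection onto the line of a unit vector -/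
noncomputable def Pr (x : H) : H →L[ℂ] H := (innerSL ℂ x).smulRight x

theorem Pr_apply (x v : H) : Pr x v = (inner ℂ x v : ℂ) • x := by
  simp [Pr]

/-- `S = 1 + (c - 1) P` -/
noncomputable def Sc (x : H) (c : ℝ) : H →L[ℂ] H := 1 + ((c - 1 : ℝ) : ℂ) • Pr x

theorem Sc_apply (x v : H) (c : ℝ) :
    Sc x c v = v + (((c - 1 : ℝ) : ℂ) * inner ℂ x v) • x := by
  simp [Sc, Pr_apply, smul_smul]

theorem Sc_mul (x : H) (hx : ‖x‖ = 1) (c : ℝ) (hc : c ≠ 0) : Sc x c * Sc x c⁻¹ = 1 := by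
  ext v
  rw [ContinuousLinearMap.mul_apply, Sc_apply, Sc_apply, inner_add_right, inner_smul_right,
    inner_self_eq_norm_sq_to_K, hx]
  simp only [ContinuousLinearMap.one_apply]
  rw [add_assoc, ← add_smul]
  have : (((c⁻¹ - 1 : ℝ) : ℂ) * inner ℂ x v + ((c - 1 : ℝ) : ℂ) *
      (inner ℂ x v + ((c⁻¹ - 1 : ℝ) : ℂ) * inner ℂ x v * ((1 : ℝ) : ℂ) ^ 2)) = 0 := by
    have hc' : (c : ℂ) ≠ 0 := by exact_mod_cast hc
    push_cast
    field_simp
    ring
  have h2 : ((RCLike.ofReal (1 : ℝ) : ℂ)) = ((1 : ℝ) : ℂ) := rfl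
  rw [h2, this, zero_smul, add_zero]

theorem Sc_self (x : H) (hx : ‖x‖ = 1) (c : ℝ) : Sc x c x = (c : ℂ) • x := by
  rw [Sc_apply, inner_self_eq_norm_sq_to_K, hx]
  have : x + (((c - 1 : ℝ) : ℂ) * ((RCLike.ofReal (1 : ℝ) : ℂ)) ^ 2) • x =
      ((1 : ℂ) + (((c - 1 : ℝ) : ℂ) * ((RCLike.ofReal (1 : ℝ) : ℂ)) ^ 2)) • x := by
    rw [add_smul, one_smul]
  rw [this]
  congr 1
  simp

theorem Sc_symm (x : H) (c : ℝ) (u v : H) : inner ℂ (Sc x c u) v = inner ℂ u (Sc x c v) := by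
  rw [Sc_apply, Sc_apply, inner_add_left, inner_add_right, inner_smul_left, inner_smul_right,
    map_mul, Complex.conj_ofReal, inner_conj_symm]
  ring

theorem Sc_norm (x : H) (hx : ‖x‖ = 1) (c : ℝ) (v : H) :
    ‖Sc x c v‖ ^ 2 = ‖v‖ ^ 2 + (c ^ 2 - 1) * ‖inner ℂ x v‖ ^ 2 := by
  rw [Sc_apply, norm_add_sq (𝕜 := ℂ), norm_smul, hx, inner_smul_right, mul_one, norm_mul,
    Complex.norm_real]
  have h1 : RCLike.re (((c - 1 : ℝ) : ℂ) * inner ℂ x v * inner ℂ v x) =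
      (c - 1) * ‖inner ℂ x v‖ ^ 2 := by
    have h2 : (inner ℂ x v : ℂ) * inner ℂ v x = ((‖inner ℂ x v‖ ^ 2 : ℝ) : ℂ) := by
      rw [← inner_conj_symm v x, Complex.mul_conj, Complex.normSq_eq_norm_sq]
    rw [mul_assoc, h2, ← Complex.ofReal_mul]
    exact Complex.ofReal_re _
  rw [h1, mul_pow, Real.norm_eq_abs, sq_abs]
  ring

/-- the product of the two norms is at most `(c + c⁻¹) / 2` -/
theorem Sc_norm_mul (x : H) (hx : ‖x‖ = 1) (c : ℝ) (hc : 0 < c) (v : H) (hv : ‖v‖ = 1) :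
    ‖Sc x c v‖ * ‖Sc x c⁻¹ v‖ ≤ (c + c⁻¹) / 2 := by
  have h1 := Sc_norm x hx c v
  have h2 := Sc_norm x hx c⁻¹ v
  rw [hv] at h1 h2
  set s := ‖inner ℂ x v‖ ^ 2 with hs
  have hsum : c⁻¹ * ‖Sc x c v‖ ^ 2 + c * ‖Sc x c⁻¹ v‖ ^ 2 = c + c⁻¹ := by
    rw [h1, h2]
    field_simp
    ring
  have hprod : (‖Sc x c v‖ * ‖Sc x c⁻¹ v‖) ^ 2 ≤ ((c + c⁻¹) / 2) ^ 2 := by
    rw [← hsum]
    have e : (‖Sc x c v‖ * ‖Sc x c⁻¹ v‖) ^ 2 = (c⁻¹ * ‖Sc x c v‖ ^ 2) * (c * ‖Sc x c⁻¹ v‖ ^ 2) := by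
      field_simp
    rw [e]
    nlinarith [sq_nonneg (c⁻¹ * ‖Sc x c v‖ ^ 2 - c * ‖Sc x c⁻¹ v‖ ^ 2)]
  exact le_of_sq_le_sq hprod (by positivity)

/-- intertwining passes to polynomials -/
theorem aeval_intertwine (B A R : H →L[ℂ] H) (h : B * R = R * A) (p : ℂ[X]) :
    aeval B p * R = R * aeval A p := by
  induction p using Polynomial.induction_on' with
  | add p q hp hq => rw [map_add, map_add, add_mul, mul_add, hp, hq]
  | monomial n a =>
    rw [aeval_monomial, aeval_monomial]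
    have hpow : B ^ n * R = R * A ^ n := by
      induction n with
      | zero => simp
      | succ n ih => rw [pow_succ', mul_assoc, ih, ← mul_assoc, h, mul_assoc, ← pow_succ']
    rw [mul_assoc, hpow, ← mul_assoc, ← mul_assoc, Algebra.commutes]

/-- Maximum modulus on a disc, for a polynomial. -/
theorem max_modulus (p : ℂ[X]) (c : ℂ) (r M : ℝ) (hr : 0 ≤ r)
    (h : ∀ ζ : ℂ, ‖ζ‖ = r → ‖p.eval (c + ζ)‖ ≤ M) (ζ : ℂ) (hζ : ‖ζ‖ ≤ r) :
    ‖p.eval (c + ζ)‖ ≤ M := by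
  rcases hr.eq_or_lt with h0 | h0
  · apply h
    rw [← h0] at hζ ⊢
    exact le_antisymm hζ (norm_nonneg _)
  · have hd : DiffContOnCl ℂ (fun z => p.eval z) (Metric.ball c r) :=
      p.differentiable.diffContOnCl
    apply Complex.norm_le_of_forall_mem_frontier_norm_le Metric.isBounded_ball hd
    · intro z hz
      rw [frontier_ball c h0.ne'] at hz
      have := h (z - c) (by rw [← dist_eq_norm]; exact hz)
      rwa [add_sub_cancel] at this
    · rw [closure_ball c h0.ne', Metric.mem_closedBall, dist_eq_norm, add_sub_cancel_left]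
      exact hζ

/-- For unit `x` and `v ⊥ x` with `‖v‖ ≤ √(1-|q|²)/|q|` the point `⟨A x, x + v⟩` lies in the region
where `|p| ≤ M`. -/
theorem disc_bound (A : H →L[ℂ] H) (q : ℂ) (hq0 : 0 < ‖q‖) (hq1 : ‖q‖ ≤ 1)
    (hd : ‖q‖ = 1 ∨ ∀ x : H, ∃ w : H, ‖w‖ = 1 ∧ inner ℂ x w = 0)
    (p : ℂ[X]) (M : ℝ) (hM : ∀ z ∈ Om A q, ‖p.eval z‖ ≤ M)
    (x v : H) (hx : ‖x‖ = 1) (hv : inner ℂ x v = 0)
    (hvn : ‖q‖ * ‖v‖ ≤ Real.sqrt (1 - ‖q‖ ^ 2)) :
    ‖p.eval (inner ℂ x (A x) + inner ℂ v (A x))‖ ≤ M := by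
  set s := Real.sqrt (1 - ‖q‖ ^ 2) with hs
  have hs0 : 0 ≤ s := Real.sqrt_nonneg _
  have hs2 : s ^ 2 = 1 - ‖q‖ ^ 2 := Real.sq_sqrt (by nlinarith)
  have hqne : q ≠ 0 := norm_pos_iff.mp hq0
  -- the general membership statement
  have hmem : ∀ w : H, inner ℂ x w = 0 → ‖w‖ = s →
      ‖p.eval (inner ℂ x (A x) + inner ℂ w (A x) / q)‖ ≤ M := by
    intro w hw hwn
    apply hM
    refine ⟨x, (starRingEnd ℂ) q • x + w, hx, ?_, ?_, ?_⟩
    · have h1 : ‖(starRingEnd ℂ) q • x + w‖ ^ 2 = 1 := by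
        rw [norm_add_sq (𝕜 := ℂ), inner_smul_left, hw, norm_smul, hx, hwn, hs2]
        simp
      have h2 : (0 : ℝ) ≤ ‖(starRingEnd ℂ) q • x + w‖ := norm_nonneg _
      nlinarith
    · rw [inner_add_left, inner_smul_left, inner_self_eq_norm_sq_to_K, hx]
      have : inner ℂ w x = 0 := by rw [← inner_conj_symm, hw, map_zero]
      rw [this]
      simp
    · rw [inner_add_left, inner_smul_left, add_div, RCLike.conj_conj,
        mul_div_cancel_left₀ _ hqne]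
  -- the disc statement for a unit vector orthogonal to `x`
  have hdisc : ∀ w : H, inner ℂ x w = 0 → ‖w‖ = 1 → ∀ ζ : ℂ,
      ‖ζ‖ ≤ s * ‖(inner ℂ w (A x) : ℂ) / q‖ → ‖p.eval (inner ℂ x (A x) + ζ)‖ ≤ M := by
    intro w hw hwn ζ hζ
    refine max_modulus p _ (s * ‖(inner ℂ w (A x) : ℂ) / q‖) M (by positivity) ?_ ζ hζ
    clear ζ hζ
    intro ζ hζ
    set b : ℂ := inner ℂ w (A x) / q with hb
    by_cases hsb : s * ‖b‖ = 0
    · have h1 := hmem ((s : ℂ) • w) (by rw [inner_smul_right, hw, mul_zero])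
        (by rw [norm_smul, hwn, mul_one, Complex.norm_real, Real.norm_of_nonneg hs0])
      rw [inner_smul_left, Complex.conj_ofReal, mul_div_assoc, ← hb] at h1
      have h2 : (s : ℂ) * b = 0 := by
        rw [← norm_eq_zero, norm_mul, Complex.norm_real, Real.norm_of_nonneg hs0]
        exact hsb
      have h3 : ζ = 0 := by
        rw [← norm_eq_zero, hζ, hsb]
      rw [h3]
      rw [h2] at h1
      exact h1
    · have hne : (s : ℂ) * b ≠ 0 := by
        intro h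
        apply hsb
        rw [← norm_eq_zero, norm_mul, Complex.norm_real, Real.norm_of_nonneg hs0] at h
        exact h
      set u : ℂ := ζ / ((s : ℂ) * b) with hu
      have hun : ‖u‖ = 1 := by
        rw [hu, norm_div, hζ, norm_mul, Complex.norm_real, Real.norm_of_nonneg hs0, div_self hsb]
      have h1 := hmem (((starRingEnd ℂ) u * (s : ℂ)) • w)
        (by rw [inner_smul_right, hw, mul_zero])
        (by rw [norm_smul, hwn, mul_one, norm_mul, RCLike.norm_conj, hun, one_mul,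
              Complex.norm_real, Real.norm_of_nonneg hs0])
      rw [inner_smul_left, map_mul, RCLike.conj_conj, Complex.conj_ofReal, mul_div_assoc,
        ← hb, mul_assoc, hu, div_mul_cancel₀ _ hne] at h1
      exact h1
  by_cases hv0 : v = 0
  · subst hv0
    rw [inner_zero_left, add_zero]
    rcases hd with hq | hd
    · have hs00 : s = 0 := by
        have : s ^ 2 = 0 := by rw [hs2, hq]; norm_num
        exact pow_eq_zero_iff (two_ne_zero) |>.mp this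
      have := hmem 0 (inner_zero_right _) (by rw [norm_zero, hs00])
      rw [inner_zero_left, zero_div, add_zero] at this
      exact this
    · obtain ⟨w, hw1, hw2⟩ := hd x
      have := hdisc w hw2 hw1 0 (by rw [norm_zero]; positivity)
      rwa [add_zero] at this
  · have hvn0 : ‖v‖ ≠ 0 := norm_ne_zero_iff.mpr hv0
    have hvn0' : (‖v‖ : ℂ) ≠ 0 := by exact_mod_cast hvn0
    refine hdisc ((‖v‖ : ℂ)⁻¹ • v) (by rw [inner_smul_right, hv, mul_zero]) ?_ _ ?_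
    · rw [norm_smul, norm_inv, Complex.norm_real, norm_norm, inv_mul_cancel₀ hvn0]
    · rw [inner_smul_left, map_inv₀, Complex.conj_ofReal, norm_div, norm_mul, norm_inv,
        Complex.norm_real, norm_norm]
      have hvp : 0 < ‖v‖ := lt_of_le_of_ne (norm_nonneg _) (Ne.symm hvn0)
      have : s * (‖v‖⁻¹ * ‖(inner ℂ v (A x) : ℂ)‖ / ‖q‖) =
          (s / (‖q‖ * ‖v‖)) * ‖(inner ℂ v (A x) : ℂ)‖ := by
        field_simp
      rw [this]
      have h1 : 1 ≤ s / (‖q‖ * ‖v‖) := by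
        rw [one_le_div (by positivity)]
        exact hvn
      nlinarith [norm_nonneg (inner ℂ v (A x) : ℂ)]

/-- General form: `|p| ≤ M` at `⟨A x, y⟩` when `⟨x, y⟩ = 1` and `‖x‖ ‖y‖ ≤ 1/|q|`. -/
theorem pair_bound (A : H →L[ℂ] H) (q : ℂ) (hq0 : 0 < ‖q‖) (hq1 : ‖q‖ ≤ 1)
    (hd : ‖q‖ = 1 ∨ ∀ x : H, ∃ w : H, ‖w‖ = 1 ∧ inner ℂ x w = 0)
    (p : ℂ[X]) (M : ℝ) (hM : ∀ z ∈ Om A q, ‖p.eval z‖ ≤ M)
    (x y : H) (hxy : inner ℂ y x = 1) (hn : ‖q‖ * (‖x‖ * ‖y‖) ≤ 1) :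
    ‖p.eval (inner ℂ y (A x))‖ ≤ M := by
  have hx0 : x ≠ 0 := by
    rintro rfl
    rw [inner_zero_right] at hxy
    exact zero_ne_one hxy
  have hxn : 0 < ‖x‖ := norm_pos_iff.mpr hx0
  have hxc : (‖x‖ : ℂ) ≠ 0 := by exact_mod_cast hxn.ne'
  set x' : H := (‖x‖ : ℂ)⁻¹ • x with hx'
  set v : H := (‖x‖ : ℂ) • y - x' with hv
  have hx'n : ‖x'‖ = 1 := by
    rw [hx', norm_smul, norm_inv, Complex.norm_real, norm_norm, inv_mul_cancel₀ hxn.ne']
  have hxy' : inner ℂ x y = 1 := by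
    rw [← inner_conj_symm, hxy, map_one]
  have hvx : inner ℂ x' v = 0 := by
    rw [hv, inner_sub_right, inner_smul_right, inner_self_eq_norm_sq_to_K, hx'n, hx',
      inner_smul_left, map_inv₀, Complex.conj_ofReal, hxy', mul_one, mul_inv_cancel₀ hxc]
    simp
  have hvn : ‖v‖ ^ 2 = (‖x‖ * ‖y‖) ^ 2 - 1 := by
    have h1 : (‖x‖ : ℂ) • y = x' + v := by rw [hv]; abel
    have h2 := norm_add_sq (𝕜 := ℂ) x' v
    rw [← h1, hvx, hx'n, norm_smul, Complex.norm_real, norm_norm] at h2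
    simp at h2
    linarith
  have hvb : ‖q‖ * ‖v‖ ≤ Real.sqrt (1 - ‖q‖ ^ 2) := by
    apply Real.le_sqrt_of_sq_le
    rw [mul_pow, hvn]
    have : (‖q‖ * (‖x‖ * ‖y‖)) ^ 2 ≤ 1 := by
      have h0 : 0 ≤ ‖q‖ * (‖x‖ * ‖y‖) := by positivity
      nlinarith
    nlinarith
  have key := disc_bound A q hq0 hq1 hd p M hM x' v hx'n hvx hvb
  have e : inner ℂ x' (A x') + inner ℂ v (A x') = inner ℂ y (A x) := by
    rw [← inner_add_left]
    have h1 : x' + v = (‖x‖ : ℂ) • y := by rw [hv]; abel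
    rw [h1, inner_smul_left, Complex.conj_ofReal, hx', map_smul, inner_smul_right, ← mul_assoc,
      mul_inv_cancel₀ hxc, one_mul]
  rwa [e] at key

/-- The constant `κ = (1 + √(1-|q|²)) / |q|`. -/
noncomputable def kap (q : ℂ) : ℝ := (1 + Real.sqrt (1 - ‖q‖ ^ 2)) / ‖q‖

theorem kap_ge (q : ℂ) (hq0 : 0 < ‖q‖) (hq1 : ‖q‖ ≤ 1) : 1 ≤ kap q := by
  rw [kap, one_le_div hq0]
  have := Real.sqrt_nonneg (1 - ‖q‖ ^ 2)
  linarith

theorem kap_avg (q : ℂ) (hq0 : 0 < ‖q‖) (hq1 : ‖q‖ ≤ 1) :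
    ‖q‖ * ((kap q + (kap q)⁻¹) / 2) = 1 := by
  have hs := Real.sq_sqrt (show (0 : ℝ) ≤ 1 - ‖q‖ ^ 2 by nlinarith)
  have hs0 := Real.sqrt_nonneg (1 - ‖q‖ ^ 2)
  set s := Real.sqrt (1 - ‖q‖ ^ 2) with hsd
  have h1 : (kap q)⁻¹ = (1 - s) / ‖q‖ := by
    rw [kap, ← hsd, inv_div, div_eq_div_iff (by positivity) (by positivity)]
    nlinarith
  rw [h1, kap, ← hsd]
  field_simp
  ring

/-- The basic inequality: Crouzeix's bound for `S⁻¹ A S`. -/
theorem basic (A : H →L[ℂ] H) (q : ℂ) (hq0 : 0 < ‖q‖) (hq1 : ‖q‖ ≤ 1)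
    (hd : ‖q‖ = 1 ∨ ∀ x : H, ∃ w : H, ‖w‖ = 1 ∧ inner ℂ x w = 0)
    (p : ℂ[X]) (M : ℝ) (hM : ∀ z ∈ Om A q, ‖p.eval z‖ ≤ M)
    (x : H) (hx : ‖x‖ = 1) :
    kap q ^ 2 * ‖aeval A p x‖ ^ 2 - (kap q ^ 2 - 1) * ‖inner ℂ x (aeval A p x)‖ ^ 2 ≤
      (2 * M) ^ 2 := by
  have hk1 := kap_ge q hq0 hq1
  have hk0 : 0 < kap q := by linarith
  haveI : Nontrivial H := ⟨⟨x, 0, fun h => by rw [h, norm_zero] at hx; exact zero_ne_one hx⟩⟩
  set k := kap q with hk
  set S := Sc x k with hS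
  set R := Sc x k⁻¹ with hR
  have hSR : S * R = 1 := Sc_mul x hx k hk0.ne'
  have hRS : R * S = 1 := by
    have := Sc_mul x hx k⁻¹ (inv_ne_zero hk0.ne')
    rwa [inv_inv] at this
  set B := R * A * S with hB
  have hBR : B * R = R * A := by
    rw [hB, mul_assoc, hSR, mul_one]
  have hnr : ∀ w ∈ numRange B, ‖p.eval w‖ ≤ M := by
    rintro _ ⟨w, hw, rfl⟩
    have h1 : inner ℂ w (B w) = inner ℂ (R w) (A (S w)) := by
      rw [hB]
      exact (Sc_symm x k⁻¹ w (A (S w))).symm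
    rw [h1]
    apply pair_bound A q hq0 hq1 hd p M hM
    · rw [hR, Sc_symm, ← hR]
      have : R (S w) = w := by
        have := congrArg (fun T : H →L[ℂ] H => T w) hRS
        exact this
      rw [this, inner_self_eq_norm_sq_to_K, hw]
      simp
    · have h2 := Sc_norm_mul x hx k hk0 w hw
      calc ‖q‖ * (‖S w‖ * ‖R w‖) ≤ ‖q‖ * ((k + k⁻¹) / 2) := by gcongr
        _ = 1 := kap_avg q hq0 hq1
  have hcz := crouzeix_bound B p M hnr
  have hM0 : 0 ≤ 2 * M := (norm_nonneg _).trans hcz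
  set T := aeval A p with hT
  have hBT : (aeval B p) x = R (T ((k : ℂ) • x)) := by
    have h1 : aeval B p * R = R * T := aeval_intertwine B A R hBR p
    have h2 : aeval B p = R * T * S := by
      calc aeval B p = aeval B p * (R * S) := by rw [hRS, mul_one]
        _ = R * T * S := by rw [← mul_assoc, h1]
    rw [h2]
    show R (T (S x)) = _
    rw [hS, Sc_self x hx]
  have hn : ‖(aeval B p) x‖ ^ 2 = k ^ 2 * ‖T x‖ ^ 2 - (k ^ 2 - 1) * ‖inner ℂ x (T x)‖ ^ 2 := by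
    rw [hBT, hR, Sc_norm x hx, map_smul, norm_smul, inner_smul_right, norm_mul, Complex.norm_real,
      Real.norm_of_nonneg hk0.le]
    field_simp
    ring
  rw [← hn]
  have h3 : ‖(aeval B p) x‖ ≤ 2 * M := by
    calc ‖(aeval B p) x‖ ≤ ‖aeval B p‖ * ‖x‖ := (aeval B p).le_opNorm x
      _ ≤ 2 * M := by rw [hx, mul_one]; exact hcz
  exact pow_le_pow_left₀ (norm_nonneg _) h3 2

/-- The crude bound `‖p(A)‖ ≤ 2 M`. -/
theorem crude (A : H →L[ℂ] H) (q : ℂ) (hq0 : 0 < ‖q‖) (hq1 : ‖q‖ ≤ 1)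
    (hd : ‖q‖ = 1 ∨ ∀ x : H, ∃ w : H, ‖w‖ = 1 ∧ inner ℂ x w = 0)
    (p : ℂ[X]) (M : ℝ) (hM0 : 0 ≤ M) (hM : ∀ z ∈ Om A q, ‖p.eval z‖ ≤ M) :
    ‖aeval A p‖ ≤ 2 * M := by
  have hk1 := kap_ge q hq0 hq1
  have unit : ∀ x : H, ‖x‖ = 1 → ‖aeval A p x‖ ≤ 2 * M := by
    intro x hx
    have h := basic A q hq0 hq1 hd p M hM x hx
    have h1 : ‖inner ℂ x (aeval A p x)‖ ≤ ‖aeval A p x‖ := by
      have := norm_inner_le_norm (𝕜 := ℂ) x (aeval A p x)
      rwa [hx, one_mul] at this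
    have h2 : ‖inner ℂ x (aeval A p x)‖ ^ 2 ≤ ‖aeval A p x‖ ^ 2 :=
      pow_le_pow_left₀ (norm_nonneg _) h1 2
    have h3 : 0 ≤ kap q ^ 2 - 1 := by nlinarith
    have h4 : ‖aeval A p x‖ ^ 2 ≤ (2 * M) ^ 2 := by nlinarith
    exact le_of_sq_le_sq h4 (by positivity)
  refine ContinuousLinearMap.opNorm_le_bound _ (by positivity) fun u => ?_
  by_cases hu : u = 0
  · simp [hu]
  have hn : ‖u‖ ≠ 0 := norm_ne_zero_iff.mpr hu
  have hnc : (‖u‖ : ℂ) ≠ 0 := by exact_mod_cast hn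
  have h1 := unit ((‖u‖ : ℂ)⁻¹ • u)
    (by rw [norm_smul, norm_inv, Complex.norm_real, norm_norm, inv_mul_cancel₀ hn])
  rw [map_smul, norm_smul, norm_inv, Complex.norm_real, norm_norm, inv_mul_le_iff₀ (by positivity)]
    at h1
  linarith

/-- the polynomial `(p - ε) ∑_{k<N} (ε̄ p)^k` -/
noncomputable def qN (p : ℂ[X]) (e : ℂ) (N : ℕ) : ℂ[X] :=
  (p - C e) * ∑ k ∈ Finset.range N, (C ((starRingEnd ℂ) e) * p) ^ k

theorem qN_mul (p : ℂ[X]) (e : ℂ) (N : ℕ) :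
    qN p e N * (1 - C ((starRingEnd ℂ) e) * p) =
      (p - C e) * (1 - (C ((starRingEnd ℂ) e) * p) ^ N) := by
  rw [qN, mul_assoc, mul_comm (∑ k ∈ Finset.range N, (C ((starRingEnd ℂ) e) * p) ^ k),
    mul_neg_geom_sum]

theorem qN_eval (p : ℂ[X]) (e : ℂ) (he : ‖e‖ < 1) (N : ℕ) (w : ℂ) (hw : ‖p.eval w‖ ≤ 1) :
    ‖(qN p e N).eval w‖ ≤ 1 + ‖e‖ ^ N := by
  set z := p.eval w with hz
  set e' := (starRingEnd ℂ) e with he'
  have hen : ‖e'‖ = ‖e‖ := RCLike.norm_conj e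
  have h1 : (qN p e N).eval w * (1 - e' * z) = (z - e) * (1 - (e' * z) ^ N) := by
    have := congrArg (fun q : ℂ[X] => q.eval w) (qN_mul p e N)
    simp only [eval_mul, eval_sub, eval_one, eval_C, eval_pow] at this
    rw [← hz, ← he'] at this
    exact this
  have hez : ‖e' * z‖ ≤ ‖e‖ := by
    rw [norm_mul, hen]
    nlinarith [norm_nonneg e, norm_nonneg z]
  have h2 : 0 < ‖1 - e' * z‖ := by
    have h4 : ‖(1 : ℂ)‖ - ‖e' * z‖ ≤ ‖1 - e' * z‖ := norm_sub_norm_le _ _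
    rw [norm_one] at h4
    linarith
  have h3 : ‖(qN p e N).eval w‖ * ‖1 - e' * z‖ ≤ (1 + ‖e‖ ^ N) * ‖1 - e' * z‖ := by
    rw [← norm_mul, h1, norm_mul, mul_comm]
    gcongr
    · calc ‖1 - (e' * z) ^ N‖ ≤ ‖(1 : ℂ)‖ + ‖(e' * z) ^ N‖ := norm_sub_le _ _
        _ ≤ 1 + ‖e‖ ^ N := by
            rw [norm_one, norm_pow]
            gcongr
    · exact moebius_le z e hw he.le
  exact le_of_mul_le_mul_right h3 h2

/-- If `K` bounds `‖p(A)‖` over the unit ball, then Möbius maps of `p(A)` are bounded by `K`. -/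
theorem moebius_op (A : H →L[ℂ] H) (W : Set ℂ) (K : ℝ) (hK0 : 0 ≤ K)
    (hK : ∀ p : ℂ[X], (∀ z ∈ W, ‖p.eval z‖ ≤ 1) → ‖aeval A p‖ ≤ K)
    (p : ℂ[X]) (hp : ∀ z ∈ W, ‖p.eval z‖ ≤ 1) (e : ℂ) (he : ‖e‖ < 1) (heK : ‖e‖ * K < 1) (u : H) :
    ‖aeval A p u - e • u‖ ≤ K * ‖u - ((starRingEnd ℂ) e) • aeval A p u‖ := by
  set T := aeval A p with hT
  set e' := (starRingEnd ℂ) e with he'
  have hen : ‖e'‖ = ‖e‖ := RCLike.norm_conj e
  have hTK : ‖T‖ ≤ K := hK p hp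
  have hqb : ∀ N : ℕ, ‖aeval A (qN p e N)‖ ≤ (1 + ‖e‖ ^ N) * K := by
    intro N
    have hpos : 0 < 1 + ‖e‖ ^ N := by positivity
    have h1 := hK (C (((1 + ‖e‖ ^ N : ℝ) : ℂ)⁻¹) * qN p e N) (by
      intro z hz
      rw [eval_mul, eval_C, norm_mul, norm_inv, Complex.norm_real, Real.norm_of_nonneg hpos.le,
        inv_mul_le_iff₀ hpos, mul_one]
      exact qN_eval p e he N z (hp z hz))
    rw [map_mul, aeval_C, Algebra.algebraMap_eq_smul_one, smul_mul_assoc, one_mul, norm_smul,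
      norm_inv, Complex.norm_real, Real.norm_of_nonneg hpos.le, inv_mul_le_iff₀ hpos] at h1
    exact h1
  have heq : ∀ N : ℕ, aeval A (qN p e N) * (1 - e' • T) = (T - e • 1) * (1 - (e' • T) ^ N) := by
    intro N
    have := congrArg (aeval A) (qN_mul p e N)
    rw [map_mul, map_mul, map_sub, map_sub, map_sub, map_mul, map_pow, map_mul, aeval_C, aeval_C,
      map_one, Algebra.algebraMap_eq_smul_one, Algebra.algebraMap_eq_smul_one, smul_mul_assoc,
      one_mul, ← hT, ← he'] at this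
    exact this
  have hineq : ∀ N : ℕ, ‖((T - e • 1) * (1 - (e' • T) ^ N)) u‖ ≤
      (1 + ‖e‖ ^ N) * K * ‖u - e' • T u‖ := by
    intro N
    rw [← heq N]
    have h1 : (aeval A (qN p e N) * (1 - e' • T)) u = aeval A (qN p e N) (u - e' • T u) := rfl
    rw [h1]
    refine ((aeval A (qN p e N)).le_opNorm _).trans ?_
    gcongr
    exact hqb N
  have hlim1 : Tendsto (fun N : ℕ => (1 + ‖e‖ ^ N) * K * ‖u - e' • T u‖) atTop
      (𝓝 ((1 + 0) * K * ‖u - e' • T u‖)) := by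
    have := tendsto_pow_atTop_nhds_zero_of_lt_one (norm_nonneg e) he
    exact ((tendsto_const_nhds.add this).mul_const _).mul_const _
  have hlim2 : Tendsto (fun N : ℕ => ‖((T - e • 1) * (1 - (e' • T) ^ N)) u‖) atTop
      (𝓝 ‖((T - e • 1) * (1 - 0)) u‖) := by
    have h0 : ‖e' • T‖ < 1 := by
      rw [norm_smul, hen]
      calc ‖e‖ * ‖T‖ ≤ ‖e‖ * K := by gcongr
        _ < 1 := heK
    have h1 : Tendsto (fun N : ℕ => (e' • T) ^ N) atTop (𝓝 0) :=
      tendsto_pow_atTop_nhds_zero_of_norm_lt_one h0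
    have h2 : Tendsto (fun N : ℕ => (T - e • 1) * (1 - (e' • T) ^ N)) atTop
        (𝓝 ((T - e • 1) * (1 - 0))) := (tendsto_const_nhds.sub h1).const_mul _
    have h3 : Continuous (fun L : H →L[ℂ] H => ‖L u‖) := by fun_prop
    exact (h3.tendsto _).comp h2
  have := le_of_tendsto_of_tendsto' hlim2 hlim1 hineq
  rw [sub_zero, mul_one, add_zero, one_mul] at this
  exact this

/-- **Main theorem**, Hilbert space form. -/
theorem main_bound (A : H →L[ℂ] H) (q : ℂ) (hq0 : 0 < ‖q‖) (hq1 : ‖q‖ ≤ 1)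
    (hd : ‖q‖ = 1 ∨ ∀ x : H, ∃ w : H, ‖w‖ = 1 ∧ inner ℂ x w = 0)
    (p : ℂ[X]) (M : ℝ) (hM0 : 0 ≤ M) (hM : ∀ z ∈ Om A q, ‖p.eval z‖ ≤ M) :
    ‖aeval A p‖ ≤ max 1 (2 / kap q) * M := by
  have hk1 := kap_ge q hq0 hq1
  have hk0 : 0 < kap q := by linarith
  set c := max 1 (2 / kap q) with hc
  have hc1 : 1 ≤ c := le_max_left _ _
  have hc2 : 2 / kap q ≤ c := le_max_right _ _
  -- the extremal constant
  set E : Set ℝ := {t | ∃ p : ℂ[X], (∀ z ∈ Om A q, ‖p.eval z‖ ≤ 1) ∧ t = ‖aeval A p‖} with hE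
  have hEb : BddAbove E := by
    refine ⟨2 * 1, ?_⟩
    rintro _ ⟨p, hp, rfl⟩
    exact crude A q hq0 hq1 hd p 1 zero_le_one hp
  have hEne : E.Nonempty := ⟨_, 0, fun z _ => by simp, rfl⟩
  set K := sSup E with hKd
  have hKb : ∀ p : ℂ[X], (∀ z ∈ Om A q, ‖p.eval z‖ ≤ 1) → ‖aeval A p‖ ≤ K :=
    fun p hp => le_csSup hEb ⟨p, hp, rfl⟩
  have hK0 : 0 ≤ K := (norm_nonneg _).trans (hKb 0 fun z _ => by simp)
  have hKc : K ≤ c := by
    by_contra hcon
    push Not at hcon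
    have hK1 : 1 < K := lt_of_le_of_lt hc1 hcon
    -- for small `s` produce near extremals
    set D : ℝ := (1 + K ^ 4) / (2 * (K ^ 2 - 1)) with hD
    have hK21 : 0 < K ^ 2 - 1 := by nlinarith
    have hD0 : 0 < D := by positivity
    have key : ∀ s : ℝ, 0 < s → s * K < 1 →
        kap q ^ 2 * (K ^ 2 - s ^ 2) ≤ 4 + (kap q ^ 2 - 1) * (D * s) ^ 2 := by
      intro s hs0 hsK
      have hs1 : s < 1 := by nlinarith
      have hlt : Real.sqrt (K ^ 2 - s ^ 2) < K := by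
        rw [Real.sqrt_lt' (by linarith)]
        nlinarith
      obtain ⟨t, ⟨p, hp, rfl⟩, ht⟩ := exists_lt_of_lt_csSup hEne hlt
      obtain ⟨x, hx1, hx2⟩ := ContinuousLinearMap.exists_lt_apply_of_lt_opNorm (aeval A p) ht
      -- normalise to a unit vector
      have hxne : x ≠ 0 := by
        rintro rfl
        rw [map_zero, norm_zero] at hx2
        exact absurd hx2 (not_lt.mpr (Real.sqrt_nonneg _))
      have hxn : 0 < ‖x‖ := norm_pos_iff.mpr hxne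
      set y : H := ((‖x‖ : ℝ) : ℂ)⁻¹ • x with hy
      have hyn : ‖y‖ = 1 := by
        rw [hy, norm_smul, norm_inv, Complex.norm_real, norm_norm, inv_mul_cancel₀ hxn.ne']
      set T := aeval A p with hT
      have hTK : ‖T‖ ≤ K := hKb p hp
      have hTy : Real.sqrt (K ^ 2 - s ^ 2) ≤ ‖T y‖ := by
        rw [hy, map_smul, norm_smul, norm_inv, Complex.norm_real, norm_norm]
        have h1 : 1 ≤ ‖x‖⁻¹ := (one_le_inv₀ hxn).mpr hx1.le
        nlinarith [norm_nonneg (T x)]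
      have hTy2 : K ^ 2 - s ^ 2 ≤ ‖T y‖ ^ 2 := by
        have h1 : (0 : ℝ) ≤ K ^ 2 - s ^ 2 := by nlinarith
        calc K ^ 2 - s ^ 2 = Real.sqrt (K ^ 2 - s ^ 2) ^ 2 := (Real.sq_sqrt h1).symm
          _ ≤ ‖T y‖ ^ 2 := pow_le_pow_left₀ (Real.sqrt_nonneg _) hTy 2
      have hTyK : ‖T y‖ ≤ K := by
        have := T.le_opNorm y
        rw [hyn, mul_one] at this
        exact this.trans hTK
      set r : ℂ := inner ℂ y (T y) with hr
      have hrb : ‖r‖ ≤ D * s := by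
        by_cases hr0 : r = 0
        · rw [hr0, norm_zero]; positivity
        have hrn : 0 < ‖r‖ := norm_pos_iff.mpr hr0
        have hrc : (‖r‖ : ℂ) ≠ 0 := by exact_mod_cast hrn.ne'
        set e : ℂ := (s : ℂ) * (r / ‖r‖) with he
        have hen : ‖e‖ = s := by
          rw [he, norm_mul, norm_div, Complex.norm_real, Complex.norm_real, norm_norm,
            div_self hrn.ne', mul_one, Real.norm_of_nonneg hs0.le]
        have hmo := moebius_op A (Om A q) K hK0 hKb p hp e (by rw [hen]; exact hs1)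
          (by rw [hen]; exact hsK) y
        rw [← hT] at hmo
        have hsq := pow_le_pow_left₀ (norm_nonneg _) hmo 2
        rw [mul_pow] at hsq
        have her : (starRingEnd ℂ) e * r = ((s * ‖r‖ : ℝ) : ℂ) := by
          rw [he, map_mul, map_div₀, Complex.conj_ofReal, Complex.conj_ofReal, mul_assoc,
            div_mul_eq_mul_div, mul_comm ((starRingEnd ℂ) r) r, Complex.mul_conj,
            Complex.normSq_eq_norm_sq]
          push_cast
          field_simp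
        have h1 : ‖T y - e • y‖ ^ 2 = ‖T y‖ ^ 2 - 2 * (s * ‖r‖) + s ^ 2 := by
          rw [norm_sub_sq (𝕜 := ℂ), norm_smul, hyn, mul_one, hen, inner_smul_right]
          have h2 : RCLike.re (e * inner ℂ (T y) y) = s * ‖r‖ := by
            have h3 : e * inner ℂ (T y) y = (starRingEnd ℂ) ((starRingEnd ℂ) e * r) := by
              rw [map_mul, RCLike.conj_conj, hr, inner_conj_symm]
            rw [h3, her, Complex.conj_ofReal]
            exact Complex.ofReal_re _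
          rw [h2]
        have h2 : ‖y - (starRingEnd ℂ) e • T y‖ ^ 2 = 1 - 2 * (s * ‖r‖) + s ^ 2 * ‖T y‖ ^ 2 := by
          rw [norm_sub_sq (𝕜 := ℂ), hyn, norm_smul, RCLike.norm_conj, hen, inner_smul_right,
            ← hr, her]
          have h3 : RCLike.re (((s * ‖r‖ : ℝ) : ℂ)) = s * ‖r‖ := Complex.ofReal_re _
          rw [h3]
          ring
        rw [h1, h2] at hsq
        have hfin : 2 * (K ^ 2 - 1) * (s * ‖r‖) ≤ s ^ 2 + s ^ 2 * K ^ 4 := by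
          have h3 : ‖T y‖ ^ 2 ≤ K ^ 2 := pow_le_pow_left₀ (norm_nonneg _) hTyK 2
          have h4 : K ^ 2 * (s ^ 2 * ‖T y‖ ^ 2) ≤ K ^ 2 * (s ^ 2 * K ^ 2) := by gcongr
          nlinarith [sq_nonneg s]
        have h5 : 2 * (K ^ 2 - 1) * ‖r‖ ≤ s * (1 + K ^ 4) := by
          have h6 : s * (2 * (K ^ 2 - 1) * ‖r‖) ≤ s * (s * (1 + K ^ 4)) := by nlinarith
          exact le_of_mul_le_mul_left h6 hs0
        rw [hD, div_mul_eq_mul_div, le_div_iff₀ (by positivity)]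
        linarith
      have hb := basic A q hq0 hq1 hd p 1 hp y hyn
      rw [← hT, ← hr] at hb
      have h7 : ‖r‖ ^ 2 ≤ (D * s) ^ 2 := pow_le_pow_left₀ (norm_nonneg _) hrb 2
      have h8 : 0 ≤ kap q ^ 2 - 1 := by nlinarith
      have h9 : kap q ^ 2 * (K ^ 2 - s ^ 2) ≤ kap q ^ 2 * ‖T y‖ ^ 2 := by gcongr
      have h10 : (kap q ^ 2 - 1) * ‖r‖ ^ 2 ≤ (kap q ^ 2 - 1) * (D * s) ^ 2 := by gcongr
      linarith
    -- let `s → 0`
    have hlim : kap q ^ 2 * (K ^ 2 - 0 ^ 2) ≤ 4 + (kap q ^ 2 - 1) * (D * 0) ^ 2 := by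
      have hc1 : Tendsto (fun s : ℝ => kap q ^ 2 * (K ^ 2 - s ^ 2)) (𝓝[>] 0)
          (𝓝 (kap q ^ 2 * (K ^ 2 - 0 ^ 2))) := by
        have : Continuous (fun s : ℝ => kap q ^ 2 * (K ^ 2 - s ^ 2)) := by fun_prop
        exact (this.tendsto 0).mono_left nhdsWithin_le_nhds
      have hc2 : Tendsto (fun s : ℝ => 4 + (kap q ^ 2 - 1) * (D * s) ^ 2) (𝓝[>] 0)
          (𝓝 (4 + (kap q ^ 2 - 1) * (D * 0) ^ 2)) := by
        have : Continuous (fun s : ℝ => 4 + (kap q ^ 2 - 1) * (D * s) ^ 2) := by fun_prop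
        exact (this.tendsto 0).mono_left nhdsWithin_le_nhds
      refine le_of_tendsto_of_tendsto hc1 hc2 ?_
      have hKinv : 0 < 1 / K := by positivity
      filter_upwards [Ioo_mem_nhdsGT hKinv] with s hs
      apply key s hs.1
      have := hs.2
      rw [lt_div_iff₀ (by linarith)] at this
      exact this
    have h1 : (kap q * K) ^ 2 ≤ 2 ^ 2 := by nlinarith
    have h2 : kap q * K ≤ 2 := le_of_sq_le_sq h1 (by norm_num)
    have h3 : K ≤ 2 / kap q := by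
      rw [le_div_iff₀ hk0]; linarith
    linarith
  -- scale
  rcases hM0.eq_or_lt with h0 | h0
  · have := crude A q hq0 hq1 hd p M hM0 hM
    rw [← h0] at this ⊢
    linarith
  · have h1 := hKb (C ((M : ℂ)⁻¹) * p) (by
      intro z hz
      rw [eval_mul, eval_C, norm_mul, norm_inv, Complex.norm_real, Real.norm_of_nonneg hM0,
        inv_mul_le_iff₀ h0, mul_one]
      exact hM z hz)
    rw [map_mul, aeval_C, Algebra.algebraMap_eq_smul_one, smul_mul_assoc, one_mul, norm_smul,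
      norm_inv, Complex.norm_real, Real.norm_of_nonneg hM0, inv_mul_le_iff₀ h0] at h1
    calc ‖aeval A p‖ ≤ M * K := h1
      _ ≤ M * c := by gcongr
      _ = c * M := mul_comm _ _

end Pool.Agent.Helper324_QNR
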